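import Pool.Agent.X219.OP.Main

/-!
The definitions are in `Pool/Agent/X219/OP/Defs.lean`: `K`, `Pt`, `Agree`, the topology `topPt`,
`pre`, `Wins`, `OmegaOnePerfect`, `Hyp`, `Q1`, `Q2`.
-/

namespace Pool.Agent.Results.MP_b008e1_lc.KurepaRefutes

open Cardinal Set
open Pool.Agent.X219.OP

/-- (1) For every regular uncountable `κ`, every closed subset `E` of the generalized Baire space
satisfies the hypothesis of Q1 and Q2.
(2) Let `κ` be regular uncountable, and suppose that there is a family `F` of more than `κ^{<κ}`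
subsets of `κ` such that for every `α < κ` the sets in `F` have fewer than `2^{ℵ₀}` traces on `α`.
Then there is `E` which satisfies the hypothesis of Q1 and Q2, has more than `κ^{<κ}` elements, and
is such that Player II has a winning strategy in `G_κ(E, x0, ω + 1)` for no `x0`; in particular the
answers to Q1 and Q2 are negative for `κ`.
(3) In particular, if the continuum hypothesis holds and there is a Kurepa family (at least `ℵ₂`
subsets of `ω₁` with countably many traces on every countable ordinal), then the answers to Q1 and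
Q2 are negative for `κ = ω₁`. -/
theorem result :
    (∀ κ : Cardinal.{0}, κ.IsRegular → ℵ₀ < κ → ∀ E : Set (Pt κ), IsClosed E → Hyp E) ∧
    (∀ κ : Cardinal.{0}, κ.IsRegular → ℵ₀ < κ →
      (∃ F : Set (Set (K κ)), κ ^< κ < #F ∧
        ∀ α : K κ, #((fun A => A ∩ Iio α) '' F : Set (Set (K κ))) < 2 ^ ℵ₀) →
      (∃ E : Set (Pt κ), Hyp E ∧ κ ^< κ < #E ∧ ∀ x0, ¬ Wins E x0) ∧ ¬ Q1 κ ∧ ¬ Q2 κ) ∧
    ((2 : Cardinal.{0}) ^ ℵ₀ = ℵ₁ →
      (∃ F : Set (Set (K ℵ₁)), ℵ_ 2 ≤ #F ∧
        ∀ α : K ℵ₁, ((fun A => A ∩ Iio α) '' F : Set (Set (K ℵ₁))).Countable) →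
      ¬ Q1 ℵ₁ ∧ ¬ Q2 ℵ₁) := by
  refine ⟨fun κ hκ _ E hE => hyp_of_closed hκ E hE, fun κ hκ hunc hF => big_of_family hκ hunc hF,
    ?_⟩
  rintro hCH ⟨F, hF, hcount⟩
  have h12 : (ℵ₁ : Cardinal.{0}) < ℵ_ 2 := Cardinal.aleph_lt_aleph.2 (by norm_num)
  refine (big_of_family Cardinal.isRegular_aleph_one ?_ ⟨F, ?_, ?_⟩).2
  · exact Cardinal.aleph0_lt_aleph_one
  · exact lt_of_le_of_lt (powerlt_aleph_one hCH) (lt_of_lt_of_le h12 hF)
  · intro α
    exact lt_of_le_of_lt (Cardinal.mk_le_aleph0_iff.2 (hcount α).to_subtype) (Cardinal.cantor _)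

end Pool.Agent.Results.MP_b008e1_lc.KurepaRefutes
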